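import Pool.Agent.X136.TR.Strip
import Pool.Agent.X136.NW.Main
import Pool.Agent.X136.IT.Intf

set_option autoImplicit false

/-!
# The boxes visited by the interface
-/

namespace Pool.Agent.X136.TR

open Finset H974 H984P H985BT H12S H973N
open H984H (step nxt_step step_nxt)
open Pool.Agent.X136.IT (Op Ob ob_inv both_iff inWired_iff free_op free_side Rg)

/-- the interface visits the box: it passes next to a primal vertex of the box -/
def Visits (m k : ℕ) (ω : Finset Edg) (a b c d : ℤ) : Prop :=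
  ∃ p ∈ Interface m k ω, p.1 ∈ Bx a b c d

/-- the box meets the wired cluster -/
def E1 (m k : ℕ) (a b c d : ℤ) (ω : Finset Edg) : Prop := ∃ v ∈ Bx a b c d, InWired m k ω v

/-- the faces of the box meet the free dual cluster -/
def E2 (m k : ℕ) (a b c d : ℤ) (ω : Finset Edg) : Prop :=
  ∃ f ∈ Bx (max (a - 1) 0) b (max (c - 1) 0) d, InFree m k ω f

theorem visits_iff {m k : ℕ} {ω : Finset Edg} (hω : ω ⊆ bulk m k) {a b c d : ℤ} (ha : 0 ≤ a)
    (hab : a ≤ b) (hb : b ≤ m) (hc : 0 ≤ c) (hcd : c ≤ d) (hd : d ≤ k) :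
    Visits m k ω a b c d ↔ E1 m k a b c d ω ∧ E2 m k a b c d ω := by
  constructor
  · rintro ⟨⟨v, f⟩, ⟨h1, h2, h3, h4⟩, h5⟩
    refine ⟨⟨v, h5, h3⟩, f, ?_, h4⟩
    obtain ⟨⟨h6, h7⟩, h8, h9⟩ := h5
    have h10 := IT.free_rg h4
    obtain ⟨⟨h11, h12⟩, h13, h14⟩ := h10
    simp only at h1 h2 h6 h7 h8 h9 h11 h12 h13 h14
    refine ⟨⟨?_, ?_⟩, ?_, ?_⟩
    · rw [max_le_iff]; omega
    · omega
    · rw [max_le_iff]; omega
    · omega
  · rintro ⟨⟨v0, hv0, h1⟩, f0, hf0, h2⟩
    by_contra hcon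
    obtain ⟨hv, hf, hpot, hC, hE⟩ := pot_of_inv (Op m k ω) (Ob m k ω) (ob_inv hω)
    have hreach : ∀ u w, Reach (Op m k ω) u w → hv u = hv w := by
      intro u w h
      induction h with
      | refl => rfl
      | tail _ hs ih =>
        obtain ⟨e, he, h | h⟩ := hs
        · rw [ih, ← h.1, ← h.2]; exact hC e he
        · rw [ih, ← h.1, ← h.2]; exact (hC e he).symm
    have hdreach : ∀ u w, DReach (Op m k ω)ᶜ u w → hf u = hf w := by
      intro u w h
      induction h with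
      | refl => rfl
      | tail _ hs ih =>
        obtain ⟨e, he, h | h⟩ := hs
        · rw [ih, ← h.1, ← h.2]; exact hE e he
        · rw [ih, ← h.1, ← h.2]; exact (hE e he).symm
    have e1 := hreach _ _ (inWired_iff.1 h1)
    have e2 := hdreach _ _ (free_op hω h2)
    have e3 := hdreach _ _ (free_op hω (free_side (m := m) (k := k) (f := ((m : ℤ), 0)) ω
      ⟨⟨by simp, by simp⟩, by simp, by simp⟩ (Or.inl rfl)))
    have hst : ((((m : ℤ), 0), .ne) : St) ∈ Ob m k ω := ⟨0, rfl⟩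
    have e0 := hpot (((m : ℤ), 0), .ne)
    rw [b2_of hst] at e0
    have e4 : face ((((m : ℤ), 0), .ne) : St) = ((m : ℤ), 0) := rfl
    rw [e4] at e0
    simp only at e0
    have hno : ∀ σ : St, σ.1 ∈ Bx a b c d → Rg m k (face σ) → hv σ.1 + hf (face σ) = 0 := by
      intro σ h3 h4
      rw [hpot, b2_not_of]
      intro h5
      obtain ⟨h6, h7⟩ := (both_iff hω σ).2 ⟨h5, h4⟩
      have h8 := IT.face_adj σ
      exact hcon ⟨(σ.1, face σ), ⟨h8.1, h8.2, h6, h7⟩, h3⟩
    have two : ∀ x y : ZMod 2, x + y = 0 → x = y := by decide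
    have hne : ∀ x y : ℤ, a ≤ x → x ≤ b → c ≤ y → y ≤ d → hv (x, y) = hf (x, y) := by
      intro x y h3 h4 h5 h6
      have := hno ((x, y), .ne) ⟨⟨h3, h4⟩, h5, h6⟩ (by
        rw [face_ne]; refine ⟨⟨?_, ?_⟩, ?_, ?_⟩ <;> simp only <;> omega)
      rw [face_ne] at this
      exact two _ _ this
    have hnw : ∀ x y : ℤ, 0 ≤ x → a ≤ x + 1 → x + 1 ≤ b → c ≤ y → y ≤ d →
        hv (x + 1, y) = hf (x, y) := by
      intro x y h0 h3 h4 h5 h6
      have := hno ((x + 1, y), .nw) ⟨⟨h3, h4⟩, h5, h6⟩ (by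
        rw [face_nw]; refine ⟨⟨?_, ?_⟩, ?_, ?_⟩ <;> simp only <;> omega)
      rw [face_nw, add_sub_cancel_right] at this
      exact two _ _ this
    have hse : ∀ x y : ℤ, a ≤ x → x ≤ b → 0 ≤ y → c ≤ y + 1 → y + 1 ≤ d →
        hv (x, y + 1) = hf (x, y) := by
      intro x y h3 h4 h0 h5 h6
      have := hno ((x, y + 1), .se) ⟨⟨h3, h4⟩, h5, h6⟩ (by
        rw [face_se]; refine ⟨⟨?_, ?_⟩, ?_, ?_⟩ <;> simp only <;> omega)
      rw [face_se, add_sub_cancel_right] at this
      exact two _ _ this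
    have hsw : ∀ x y : ℤ, 0 ≤ x → a ≤ x + 1 → x + 1 ≤ b → 0 ≤ y → c ≤ y + 1 → y + 1 ≤ d →
        hv (x + 1, y + 1) = hf (x, y) := by
      intro x y h0 h3 h4 h0' h5 h6
      have := hno ((x + 1, y + 1), .sw) ⟨⟨h3, h4⟩, h5, h6⟩ (by
        rw [face_sw]; refine ⟨⟨?_, ?_⟩, ?_, ?_⟩ <;> simp only <;> omega)
      rw [face_sw, add_sub_cancel_right, add_sub_cancel_right] at this
      exact two _ _ this
    have hrow : ∀ (y : ℤ), c ≤ y → y ≤ d → ∀ n : ℕ, a + n ≤ b → hv (a + n, y) = hv (a, y) := by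
      intro y h3 h4 n
      induction n with
      | zero => intro _; simp
      | succ n ih =>
        intro hn
        push_cast at hn ⊢
        rw [← add_assoc, hnw (a + n) y (by omega) (by omega) (by omega) h3 h4,
          ← hne (a + n) y (by omega) (by omega) h3 h4]
        exact ih (by omega)
    have hcol : ∀ n : ℕ, c + n ≤ d → hv (a, c + n) = hv (a, c) := by
      intro n
      induction n with
      | zero => intro _; simp
      | succ n ih =>
        intro hn
        push_cast at hn ⊢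
        rw [← add_assoc, hse a (c + n) (by omega) (by omega) (by omega) (by omega) (by omega),
          ← hne a (c + n) (by omega) (by omega) (by omega) (by omega)]
        exact ih (by omega)
    have hall : ∀ x y : ℤ, a ≤ x → x ≤ b → c ≤ y → y ≤ d → hv (x, y) = hv (a, c) := by
      intro x y h3 h4 h5 h6
      have h7 := hrow y h5 h6 (x - a).toNat (by omega)
      have h8 := hcol (y - c).toNat (by omega)
      have h9 : a + ((x - a).toNat : ℤ) = x := by omega
      have h10 : c + ((y - c).toNat : ℤ) = y := by omega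
      rw [h9] at h7
      rw [h10] at h8
      rw [h7, h8]
    have hface : hf f0 = hv (a, c) := by
      obtain ⟨x, y⟩ := f0
      obtain ⟨⟨h3, h4⟩, h5, h6⟩ := hf0
      simp only [max_le_iff] at h3 h4 h5 h6
      by_cases hx : a ≤ x
      · by_cases hy : c ≤ y
        · rw [← hne x y hx h4 hy h6]; exact hall x y hx h4 hy h6
        · rw [← hse x y hx h4 (by omega) (by omega) (by omega)]
          exact hall x (y + 1) hx h4 (by omega) (by omega)
      · by_cases hy : c ≤ y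
        · rw [← hnw x y (by omega) (by omega) (by omega) hy h6]
          exact hall (x + 1) y (by omega) (by omega) hy h6
        · rw [← hsw x y (by omega) (by omega) (by omega) (by omega) (by omega) (by omega)]
          exact hall (x + 1) (y + 1) (by omega) (by omega) (by omega) (by omega)
    have hvert : hv v0 = hv (a, c) := by
      obtain ⟨x, y⟩ := v0
      obtain ⟨⟨h3, h4⟩, h5, h6⟩ := hv0
      exact hall x y h3 h4 h5 h6
    rw [e1, hvert, ← e3, e2, hface] at e0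
    revert e0
    generalize hv (a, c) = t
    revert t
    decide

/-! ### duality -/

/-- the dual edge, as a primal edge with the coordinates of its faces -/
def du : Edg ↪ Edg where
  toFun e := if e.2.2 then (e.1, e.2.1 - 1, false) else (e.1 - 1, e.2.1, true)
  inj' := by
    rintro ⟨x, y, _ | _⟩ ⟨x', y', _ | _⟩ h <;> simp at h ⊢ <;> omega

theorem du_true (x y : ℤ) : du (x, y, true) = (x, y - 1, false) := rfl

theorem du_false (x y : ℤ) : du (x, y, false) = (x - 1, y, true) := rfl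

theorem src_du (e : Edg) : src (du e) = dsrc e := by
  obtain ⟨x, y, _ | _⟩ := e <;> rfl

theorem tgt_du (e : Edg) : tgt (du e) = dtgt e := by
  obtain ⟨x, y, _ | _⟩ := e
  · rw [du_false, tgt_true, dtgt_mk, sub_add_cancel]
  · rw [du_true, tgt_false, dtgt_mk, sub_add_cancel]

theorem dreach_iff {G : Set Edg} {u v : Vtx} : DReach G u v ↔ Reach (du '' G) u v := by
  constructor
  · intro h
    induction h with
    | refl => exact Reach.refl _ _
    | tail _ hs ih =>
      obtain ⟨e, he, hh⟩ := hs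
      refine ih.trans (Adj.reach ⟨du e, Set.mem_image_of_mem _ he, ?_⟩)
      rw [src_du, tgt_du]
      exact hh
  · intro h
    induction h with
    | refl => exact DReach.refl _ _
    | tail _ hs ih =>
      obtain ⟨e', ⟨e, he, rfl⟩, hh⟩ := hs
      rw [src_du, tgt_du] at hh
      exact ih.trans (DAdj.reach ⟨e, he, hh⟩)

/-- the dual connection event for a set of closed edges -/
def Rr (m k : ℕ) (a b c d : ℤ) (F : Finset Edg) : Prop :=
  ∃ f ∈ Bx (max (a - 1) 0) b (max (c - 1) 0) d, DReach (↑F ∪ ↑(cut m k)) (m, k) f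

theorem Rr_iff {m k : ℕ} {a b c d : ℤ} {F : Finset Edg} : Rr m k a b c d F ↔
    CO {((m : ℤ), (k : ℤ))} (Bx (max (a - 1) 0) b (max (c - 1) 0) d) (du '' ↑(cut m k))
      (F.map du) := by
  unfold Rr CO Cn
  have e : ((↑(F.map du) : Set Edg) ∪ du '' ↑(cut m k)) = du '' (↑F ∪ ↑(cut m k)) := by
    rw [coe_map, Set.image_union]
  constructor
  · rintro ⟨f, hf, h⟩
    refine ⟨_, Set.mem_singleton _, f, hf, ?_⟩
    rw [e]
    exact dreach_iff.1 h
  · rintro ⟨u, hu, f, hf, h⟩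
    rw [Set.mem_singleton_iff] at hu
    subst hu
    rw [e] at h
    exact ⟨f, hf, dreach_iff.2 h⟩

theorem du_bulk_sub (m k : ℕ) : (bulk m k).map du ⊆ RE 0 m 0 k := by
  intro e he
  rw [mem_map] at he
  obtain ⟨⟨x, y, _ | _⟩, h, rfl⟩ := he
  · rw [NW.mem_bulk] at h
    rw [du_false, mem_RE_true]
    simp only [Bool.false_eq_true, false_and, true_and, false_or] at h
    omega
  · rw [NW.mem_bulk] at h
    rw [du_true, mem_RE_false]
    simp only [Bool.true_eq_false, false_and, true_and, or_false] at h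
    omega

theorem sub_du_bulk (m k : ℕ) : RE 1 ((m : ℤ) - 1) 1 ((k : ℤ) - 1) ⊆ (bulk m k).map du := by
  rintro ⟨x, y, _ | _⟩ h
  · rw [mem_RE_false] at h
    rw [mem_map]
    refine ⟨(x, y + 1, true), ?_, ?_⟩
    · rw [NW.mem_bulk]
      left
      refine ⟨rfl, ⟨?_, ?_⟩, ?_, ?_⟩ <;> simp only <;> omega
    · rw [du_true, add_sub_cancel_right]
  · rw [mem_RE_true] at h
    rw [mem_map]
    refine ⟨(x + 1, y, false), ?_, ?_⟩
    · rw [NW.mem_bulk]
      right
      refine ⟨rfl, ⟨?_, ?_⟩, ?_, ?_⟩ <;> simp only <;> omega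
    · rw [du_false, add_sub_cancel_right]

theorem bulk_sub' (m k : ℕ) : bulk m k ⊆ RE 0 m 0 k := H985BT.bulk_sub m k

theorem sub_bulk' (m k : ℕ) : RE 1 ((m : ℤ) - 1) 1 ((k : ℤ) - 1) ⊆ bulk m k := by
  rintro ⟨x, y, _ | _⟩ h
  · rw [mem_RE_false] at h
    rw [NW.mem_bulk]
    right
    refine ⟨rfl, ⟨?_, ?_⟩, ?_, ?_⟩ <;> simp only <;> omega
  · rw [mem_RE_true] at h
    rw [NW.mem_bulk]
    left
    refine ⟨rfl, ⟨?_, ?_⟩, ?_, ?_⟩ <;> simp only <;> omega

theorem cut_bulk (m k : ℕ) : Disjoint (cut m k) (bulk m k) := by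
  rw [disjoint_left]
  rintro ⟨x, y, _ | _⟩ h1 h2
  · rw [IT.mem_cut'] at h1
    rw [NW.mem_bulk] at h2
    simp only [Bool.false_eq_true, false_and, true_and, false_or] at h1 h2
    omega
  · rw [IT.mem_cut'] at h1
    rw [NW.mem_bulk] at h2
    simp only [Bool.true_eq_false, false_and, true_and, or_false] at h1 h2
    omega

/-- **The variation of the two events.** -/
theorem vary : ∃ C : ℝ, 1 ≤ C ∧ ∀ M : ℕ, 1 ≤ M → ∀ δ : ℝ, 0 ≤ δ → δ ≤ 1/2 →
    ∀ m k : ℕ, m ≤ M → k ≤ M →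
    ∀ a b c d : ℤ, 0 ≤ a → a ≤ b → b ≤ m → 0 ≤ c → c ≤ d → d ≤ k →
    PQ (1/2 + δ) (bulk m k) (E1 m k a b c d) - PQ (1/2 - δ) (bulk m k) (E1 m k a b c d) ≤
      C * δ * (M:ℝ) ^ (3/4 : ℝ) ∧
    PQ (1/2 + δ) (bulk m k) (fun ω => ¬ E2 m k a b c d ω) -
      PQ (1/2 - δ) (bulk m k) (fun ω => ¬ E2 m k a b c d ω) ≤ C * δ * (M:ℝ) ^ (3/4 : ℝ) := by
  obtain ⟨C, hC, hs⟩ := strip
  refine ⟨C, hC, ?_⟩
  intro M hM δ hδ hδ2 m k hm hk a b c d ha hab hb hc hcd hd
  have hmM : (m : ℤ) ≤ M := by exact_mod_cast hm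
  have hkM : (k : ℤ) ≤ M := by exact_mod_cast hk
  constructor
  · have h1 := hs M hM δ hδ hδ2 m k (by omega) hmM (by omega) hkM (bulk m k) (bulk_sub' m k)
      (sub_bulk' m k) (0, 0) (by simp) a b c d ha hab hb hc hcd hd ↑(wired m k)
      (by rw [disjoint_coe]; exact (NW.bulk_disj m k).symm)
    have e : ∀ t : ℝ, PQ t (bulk m k) (E1 m k a b c d) =
        PQ t (bulk m k) (CO {((0 : ℤ), (0 : ℤ))} (Bx a b c d) ↑(wired m k)) := by
      intro t
      unfold PQ
      refine Pr_congr fun F _ => ?_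
      unfold E1 CO Cn InWired
      constructor
      · rintro ⟨v, hv, h⟩
        exact ⟨_, Set.mem_singleton _, v, hv, h⟩
      · rintro ⟨u, hu, v, hv, h⟩
        rw [Set.mem_singleton_iff] at hu
        subst hu
        exact ⟨v, hv, h⟩
    rw [e, e]
    exact h1
  · have h1 := hs M hM δ hδ hδ2 m k (by omega) hmM (by omega) hkM ((bulk m k).map du)
      (du_bulk_sub m k) (sub_du_bulk m k) (m, k) (by simp) (max (a - 1) 0) b (max (c - 1) 0) d
      (le_max_right _ _) (by rw [max_le_iff]; omega) hb (le_max_right _ _)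
      (by rw [max_le_iff]; omega) hd (du '' ↑(cut m k)) (by
        rw [coe_map, Set.disjoint_image_iff du.injective, disjoint_coe]
        exact cut_bulk m k)
    have e : ∀ t : ℝ, PQ t (bulk m k) (fun ω => ¬ E2 m k a b c d ω) =
        1 - PQ (1 - t) ((bulk m k).map du)
          (CO {((m : ℤ), (k : ℤ))} (Bx (max (a - 1) 0) b (max (c - 1) 0) d) (du '' ↑(cut m k))) := by
      intro t
      unfold PQ
      rw [Pr_map, Pr_not]
      congr 1
      have e3 : (fun _ : Edg => t) = fun e : Edg => 1 - (fun _ : Edg => 1 - t) e := by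
        funext _
        ring
      have e4 : Pr (fun _ => t) (bulk m k) (fun ω => E2 m k a b c d ω) =
          Pr (fun _ => 1 - t) (bulk m k) (fun F => Rr m k a b c d F) := by
        rw [e3, Pr_compl]
        refine Pr_congr fun F hF => ?_
        unfold E2 Rr InFree
        have e5 : bulk m k \ (bulk m k \ F) = F := by
          rw [sdiff_sdiff_right_self]
          exact inf_eq_right.2 hF
        rw [e5]
      rw [e4]
      exact Pr_congr fun F _ => Rr_iff
    rw [e, e]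
    have e6 : (1:ℝ) - (1/2 + δ) = 1/2 - δ := by ring
    have e7 : (1:ℝ) - (1/2 - δ) = 1/2 + δ := by ring
    rw [e6, e7]
    linarith

theorem E1_mono {m k : ℕ} {a b c d : ℤ} {F G : Finset Edg} (h : F ⊆ G)
    (hF : E1 m k a b c d F) : E1 m k a b c d G := by
  obtain ⟨v, hv, hF⟩ := hF
  exact ⟨v, hv, hF.mono (Set.union_subset_union_left _ (by exact_mod_cast h))⟩

theorem dreach_mono {F G : Set Edg} (h : F ⊆ G) {u v : Vtx} (hF : DReach F u v) :
    DReach G u v := by
  induction hF with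
  | refl => exact DReach.refl _ _
  | tail _ hs ih =>
    obtain ⟨e, he, hh⟩ := hs
    exact ih.trans (DAdj.reach ⟨e, h he, hh⟩)

theorem E2_mono {m k : ℕ} {a b c d : ℤ} {F G : Finset Edg} (h : F ⊆ G)
    (hG : E2 m k a b c d G) : E2 m k a b c d F := by
  obtain ⟨f, hf, hG⟩ := hG
  refine ⟨f, hf, dreach_mono ?_ hG⟩
  refine Set.union_subset_union_left _ ?_
  exact_mod_cast sdiff_subset_sdiff (subset_refl _) h

theorem rcP_congr' {q : ℝ} {m k : ℕ} {A B : Finset Edg → Prop}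
    (h : ∀ ω, ω ⊆ bulk m k → (A ω ↔ B ω)) : rcP q m k A = rcP q m k B := by
  classical
  unfold rcP
  congr 1
  refine sum_congr ?_ fun _ _ => rfl
  exact filter_congr fun ω hω => h ω (mem_powerset.1 hω)

/-- **The joint law of the boxes visited by the interface.** -/
theorem visits_close : ∃ C : ℝ, 1 ≤ C ∧ ∀ q : ℝ, 0 < q → ∀ m k : ℕ, 1 ≤ m → 1 ≤ k →
    ∀ (ι : Type) [Fintype ι] (a b c d : ι → ℤ),
    (∀ i, (0 ≤ a i ∧ a i ≤ b i ∧ b i ≤ m) ∧ (0 ≤ c i ∧ c i ≤ d i ∧ d i ≤ k)) →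
    ∀ T : Set (Set ι),
    |rcP q m k (fun ω => {i | Visits m k ω (a i) (b i) (c i) (d i)} ∈ T) -
      rcP 1 m k (fun ω => {i | Visits m k ω (a i) (b i) (c i) (d i)} ∈ T)| ≤
      C * Fintype.card ι * |q - 1| * ((max m k : ℕ) : ℝ) ^ (3/4 : ℝ) := by
  obtain ⟨C, hC, hv⟩ := vary
  refine ⟨2 * C, by linarith, ?_⟩
  intro q hq m k hm hk ι _ a b c d hab T
  classical
  obtain ⟨d0, d1, d2, d3, d4⟩ := NW.dev_spec hq
  set M := max m k with hM
  have hM1 : 1 ≤ M := hm.trans (le_max_left _ _)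
  have hMp : 0 ≤ (M:ℝ) ^ (3/4 : ℝ) := by positivity
  have hcongr : ∀ q : ℝ, rcP q m k (fun ω => {i | Visits m k ω (a i) (b i) (c i) (d i)} ∈ T) =
      rcP q m k (fun ω => {i | E1 m k (a i) (b i) (c i) (d i) ω ∧
        E2 m k (a i) (b i) (c i) (d i) ω} ∈ T) := by
    intro q
    refine rcP_congr' fun ω hω => ?_
    have : {i | Visits m k ω (a i) (b i) (c i) (d i)} =
        {i | E1 m k (a i) (b i) (c i) (d i) ω ∧ E2 m k (a i) (b i) (c i) (d i) ω} := by
      ext i
      obtain ⟨⟨h1, h2, h3⟩, h4, h5, h6⟩ := hab i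
      exact visits_iff hω h1 h2 h3 h4 h5 h6
    rw [this]
  rw [hcongr, hcongr]
  set A : ι × Bool → Finset Edg → Prop := fun j ω =>
    if j.2 then E1 m k (a j.1) (b j.1) (c j.1) (d j.1) ω
    else ¬ E2 m k (a j.1) (b j.1) (c j.1) (d j.1) ω with hA
  obtain ⟨hp, hmn⟩ := NW.mon_of_events Finset.univ (bulk m k) A
    (fun j _ F G h _ hF => by
      obtain ⟨i, _ | _⟩ := j
      · exact fun h2 => hF (E2_mono h h2)
      · exact E1_mono h hF)
    (fun ω => ind ({i | E1 m k (a i) (b i) (c i) (d i) ω ∧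
        E2 m k (a i) (b i) (c i) (d i) ω} ∈ T))
    (fun F G h => by
      have : {i | E1 m k (a i) (b i) (c i) (d i) F ∧ E2 m k (a i) (b i) (c i) (d i) F} =
          {i | E1 m k (a i) (b i) (c i) (d i) G ∧ E2 m k (a i) (b i) (c i) (d i) G} := by
        ext i
        have h1 : E1 m k (a i) (b i) (c i) (d i) F ↔ E1 m k (a i) (b i) (c i) (d i) G :=
          h (i, true) (Finset.mem_univ _)
        have h2 : ¬ E2 m k (a i) (b i) (c i) (d i) F ↔ ¬ E2 m k (a i) (b i) (c i) (d i) G :=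
          h (i, false) (Finset.mem_univ _)
        exact and_congr h1 (not_iff_not.1 h2)
      rw [this])
    (fun F => ⟨ind_nonneg _, ind_le_one _⟩)
  have h := (NW.rto_fk m k hq).compare hp hmn
  rw [NW.rcP_eq, NW.rcP_one]
  refine h.trans ?_
  rw [d3, d4, Ex_sum, Ex_sum, ← sum_sub_distrib]
  have hi : ∀ j ∈ (Finset.univ : Finset (ι × Bool)),
      Ex (fun _ => 1/2 + NW.dev q) (bulk m k) (fun ω => ind (A j ω)) -
        Ex (fun _ => 1/2 - NW.dev q) (bulk m k) (fun ω => ind (A j ω)) ≤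
      C * NW.dev q * (M:ℝ) ^ (3/4 : ℝ) := by
    intro j _
    obtain ⟨⟨h1, h2, h3⟩, h4, h5, h6⟩ := hab j.1
    have h7 := hv M hM1 (NW.dev q) d0 d1 m k (le_max_left _ _) (le_max_right _ _)
      (a j.1) (b j.1) (c j.1) (d j.1) h1 h2 h3 h4 h5 h6
    obtain ⟨i, _ | _⟩ := j
    · exact h7.2
    · exact h7.1
  calc 2 * ∑ j : ι × Bool, (Ex (fun _ => 1/2 + NW.dev q) (bulk m k) (fun ω => ind (A j ω)) -
        Ex (fun _ => 1/2 - NW.dev q) (bulk m k) (fun ω => ind (A j ω)))
      ≤ 2 * ∑ _j : ι × Bool, C * NW.dev q * (M:ℝ) ^ (3/4 : ℝ) :=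
        mul_le_mul_of_nonneg_left (sum_le_sum hi) (by norm_num)
    _ = 2 * ((Fintype.card ι * 2) * (C * NW.dev q * (M:ℝ) ^ (3/4 : ℝ))) := by
        rw [sum_const, Finset.card_univ, Fintype.card_prod, Fintype.card_bool, nsmul_eq_mul]
        push_cast
        ring
    _ = 2 * C * Fintype.card ι * (2 * NW.dev q) * (M:ℝ) ^ (3/4 : ℝ) := by ring
    _ ≤ 2 * C * Fintype.card ι * |q - 1| * (M:ℝ) ^ (3/4 : ℝ) := by
        apply mul_le_mul_of_nonneg_right _ hMp
        exact mul_le_mul_of_nonneg_left (by linarith) (by positivity)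

end Pool.Agent.X136.TR
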