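import Pool.Agent.X136.TR.Visit

set_option autoImplicit false

/-!
# The trace of the interface as a random compact set
-/

namespace Pool.Agent.X136.TR

open Finset H974 H985BT TopologicalSpace Metric Filter Topology
open H985IL (rcE)

/-- the center of the medial edge between the vertex `v` and the face `f` -/
noncomputable def ctr (p : Vtx × Vtx) : ℂ :=
  ⟨((p.1.1 : ℝ) + p.2.1 + 1/2) / 2, ((p.1.2 : ℝ) + p.2.2 + 1/2) / 2⟩

/-- the points of the interface, for the mesh `δ` -/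
def pts (δ : ℝ) (m k : ℕ) (ω : Finset Edg) : Set ℂ :=
  {z | ∃ p ∈ Interface m k ω, z = (δ : ℂ) * ctr p}

open Classical in
/-- the interface as a nonempty compact set -/
noncomputable def trace (δ : ℝ) (m k : ℕ) (ω : Finset Edg) : NonemptyCompacts ℂ :=
  if h : (pts δ m k ω).Finite ∧ (pts δ m k ω).Nonempty then ⟨⟨pts δ m k ω, h.1.isCompact⟩, h.2⟩
  else ⟨⟨{0}, isCompact_singleton⟩, ⟨0, rfl⟩⟩

theorem pts_fin {δ : ℝ} {m k : ℕ} {ω : Finset Edg} (hω : ω ⊆ bulk m k) :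
    (pts δ m k ω).Finite := by
  have h := (IT.interface_fin hω).image fun p => (δ : ℂ) * ctr p
  refine h.subset ?_
  rintro z ⟨p, hp, rfl⟩
  exact ⟨p, hp, rfl⟩

theorem interface_ne {m k : ℕ} (ω : Finset Edg) : (Interface m k ω).Nonempty := by
  refine ⟨(((m : ℤ), 0), ((m : ℤ), 0)), Or.inl rfl, Or.inl rfl, ?_, ?_⟩
  · exact IT.wired_corner m k ω
  · exact IT.free_side ω ⟨⟨by simp, by simp⟩, by simp, by simp⟩ (Or.inl rfl)

theorem coe_trace {δ : ℝ} {m k : ℕ} {ω : Finset Edg} (hω : ω ⊆ bulk m k) :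
    (trace δ m k ω : Set ℂ) = pts δ m k ω := by
  have h : (pts δ m k ω).Finite ∧ (pts δ m k ω).Nonempty := by
    refine ⟨pts_fin hω, ?_⟩
    obtain ⟨p, hp⟩ := interface_ne (m := m) (k := k) ω
    exact ⟨_, p, hp, rfl⟩
  unfold trace
  rw [dif_pos h]
  rfl

/-! ### expectations -/

theorem wsum_pos {q : ℝ} (hq : 0 < q) (m k : ℕ) :
    0 < ∑ ω ∈ (bulk m k).powerset, weight q m k ω := (NW.rto_fk m k hq).wpos

theorem rcE_close {q : ℝ} (hq : 0 < q) {m k : ℕ} {f g : Finset Edg → ℝ} {ε : ℝ}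
    (h : ∀ ω, ω ⊆ bulk m k → |f ω - g ω| ≤ ε) : |rcE q m k f - rcE q m k g| ≤ ε := by
  have hW := wsum_pos hq m k
  unfold rcE
  rw [← sub_div, ← sum_sub_distrib, abs_div, abs_of_pos hW, div_le_iff₀ hW, mul_sum]
  refine (abs_sum_le_sum_abs _ _).trans (sum_le_sum fun ω hω => ?_)
  have hw := (NW.rto_fk m k hq).pos ω (mem_powerset.1 hω)
  rw [← mul_sub, abs_mul, abs_of_pos hw, mul_comm]
  exact mul_le_mul_of_nonneg_right (h ω (mem_powerset.1 hω)) hw.le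

open Classical in
theorem rcE_fin (q : ℝ) (m k : ℕ) {κ : Type*} [Fintype κ] (V : Finset Edg → κ) (g : κ → ℝ) :
    rcE q m k (fun ω => g (V ω)) = ∑ x : κ, g x * rcP q m k (fun ω => V ω = x) := by
  unfold rcE rcP
  simp only [mul_div_assoc']
  rw [← sum_div]
  congr 1
  simp only [sum_filter, mul_sum]
  rw [sum_comm]
  refine sum_congr rfl fun ω _ => ?_
  rw [sum_eq_single (V ω)]
  · simp [mul_comm]
  · intro x _ hx
    rw [if_neg (Ne.symm hx), mul_zero]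
  · intro h
    exact absurd (mem_univ _) h

/-- functions of finitely many values -/
theorem rcE_diff {q q' : ℝ} {m k : ℕ} {κ : Type*} [Fintype κ] (V : Finset Edg → κ) (g : κ → ℝ)
    {B K : ℝ} (hg : ∀ x, |g x| ≤ B)
    (h : ∀ x, |rcP q m k (fun ω => V ω = x) - rcP q' m k (fun ω => V ω = x)| ≤ K) :
    |rcE q m k (fun ω => g (V ω)) - rcE q' m k (fun ω => g (V ω))| ≤ Fintype.card κ * (B * K) := by
  rw [rcE_fin, rcE_fin, ← sum_sub_distrib]
  refine (abs_sum_le_sum_abs _ _).trans ?_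
  rw [← nsmul_eq_mul, ← card_univ, ← sum_const]
  refine sum_le_sum fun x _ => ?_
  rw [← mul_sub, abs_mul]
  exact mul_le_mul (hg x) (h x) (abs_nonneg _) ((abs_nonneg _).trans (hg x))

/-! ### the grid -/

/-- lower end of the cell -/
def lo (h : ℤ) (m : ℕ) (i : ℕ) : ℤ := min (i * h) m

/-- upper end of the cell -/
def hi (h : ℤ) (m : ℕ) (i : ℕ) : ℤ := min (i * h + h - 1) m

theorem lo_hi {h : ℤ} (hh : 1 ≤ h) (m i : ℕ) :
    0 ≤ lo h m i ∧ lo h m i ≤ hi h m i ∧ hi h m i ≤ m ∧ hi h m i ≤ lo h m i + h - 1 := by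
  unfold lo hi
  have h1 : 0 ≤ (i : ℤ) * h := by positivity
  omega

theorem cell_of {h : ℤ} (hh : 1 ≤ h) {m n : ℕ} {x : ℤ} (hx : 0 ≤ x) (hxm : x ≤ m)
    (hn : (m : ℤ) < n * h) : ∃ i : Fin n, lo h m i ≤ x ∧ x ≤ hi h m i := by
  have h1 : 0 ≤ x / h := Int.ediv_nonneg hx (by omega)
  have h2 : x / h * h ≤ x := Int.ediv_mul_le x (by omega)
  have h3 : x < (x / h + 1) * h := Int.lt_ediv_add_one_mul_self x (by omega)
  have h4 : x / h < n := by
    by_contra hcon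
    have : (n : ℤ) * h ≤ x / h * h := mul_le_mul_of_nonneg_right (by omega) (by omega)
    omega
  refine ⟨⟨(x / h).toNat, by omega⟩, ?_, ?_⟩
  · unfold lo
    have : (((x / h).toNat : ℕ) : ℤ) = x / h := Int.toNat_of_nonneg h1
    simp only
    rw [this]
    exact (min_le_left _ _).trans h2
  · unfold hi
    have : (((x / h).toNat : ℕ) : ℤ) = x / h := Int.toNat_of_nonneg h1
    simp only
    rw [this, le_min_iff]
    constructor
    · have e : (x / h + 1) * h = x / h * h + h := by ring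
      omega
    · exact hxm

/-- the corner of a cell -/
noncomputable def corner (δ : ℝ) (h : ℤ) (m k : ℕ) {n : ℕ} (i : Fin n × Fin n) : ℂ :=
  (δ : ℂ) * ⟨(lo h m i.1 : ℝ), (lo h k i.2 : ℝ)⟩

open Classical in
/-- the corners of the cells of a set -/
noncomputable def corners (δ : ℝ) (h : ℤ) (m k : ℕ) {n : ℕ} (V : Set (Fin n × Fin n)) :
    NonemptyCompacts ℂ :=
  if hV : V.Nonempty then ⟨⟨corner δ h m k '' V, ((Set.toFinite V).image _).isCompact⟩, hV.image _⟩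
  else ⟨⟨{0}, isCompact_singleton⟩, ⟨0, rfl⟩⟩

/-- the visited cells -/
def vis (h : ℤ) (m k n : ℕ) (ω : Finset Edg) : Set (Fin n × Fin n) :=
  {i | Visits m k ω (lo h m i.1) (hi h m i.1) (lo h k i.2) (hi h k i.2)}

theorem norm_le_two (x y : ℝ) {r : ℝ} (hx : |x| ≤ r) (hy : |y| ≤ r) : ‖(⟨x, y⟩ : ℂ)‖ ≤ 2 * r := by
  have := Complex.norm_le_abs_re_add_abs_im ⟨x, y⟩
  simp only at this
  linarith

theorem ctr_near {p : Vtx × Vtx} {m k : ℕ} {ω : Finset Edg} (hp : p ∈ Interface m k ω) {h : ℤ}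
    (hh : 1 ≤ h) {n : ℕ} {i : Fin n × Fin n}
    (hi' : p.1 ∈ Bx (lo h m i.1) (hi h m i.1) (lo h k i.2) (hi h k i.2)) {δ : ℝ} (hδ : 0 ≤ δ) :
    dist ((δ : ℂ) * ctr p) (corner δ h m k i) ≤ 2 * (δ * h) := by
  obtain ⟨⟨v1, v2⟩, f1, f2⟩ := p
  obtain ⟨h1, h2, -, -⟩ := hp
  obtain ⟨⟨h3, h4⟩, h5, h6⟩ := hi'
  obtain ⟨-, -, -, a4⟩ := lo_hi hh m i.1
  obtain ⟨-, -, -, b4⟩ := lo_hi hh k i.2
  simp only at h1 h2 h3 h4 h5 h6
  have key : ∀ (v f l : ℤ), (f = v ∨ f = v - 1) → l ≤ v → v ≤ l + h - 1 →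
      |((v : ℝ) + f + 1/2) / 2 - l| ≤ h := by
    intro v f l hf hl1 hl2
    have e1 : (l : ℝ) ≤ v := by exact_mod_cast hl1
    have e2 : (v : ℝ) ≤ l + h - 1 := by exact_mod_cast hl2
    have e3 : (f : ℝ) ≤ v := by
      have : f ≤ v := by omega
      exact_mod_cast this
    have e4 : (v : ℝ) - 1 ≤ f := by
      have : v - 1 ≤ f := by omega
      exact_mod_cast this
    have e5 : (1 : ℝ) ≤ h := by exact_mod_cast hh
    rw [abs_le]
    constructor <;> linarith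
  have k1 := key v1 f1 (lo h m i.1) h1 h3 (by omega)
  have k2 := key v2 f2 (lo h k i.2) h2 h5 (by omega)
  unfold corner ctr
  rw [dist_eq_norm, ← mul_sub, norm_mul, Complex.norm_real, Real.norm_of_nonneg hδ]
  have e : (⟨((v1 : ℝ) + f1 + 1/2) / 2, ((v2 : ℝ) + f2 + 1/2) / 2⟩ : ℂ) -
      ⟨(lo h m i.1 : ℝ), (lo h k i.2 : ℝ)⟩ =
      ⟨((v1 : ℝ) + f1 + 1/2) / 2 - (lo h m i.1 : ℝ),
        ((v2 : ℝ) + f2 + 1/2) / 2 - (lo h k i.2 : ℝ)⟩ := by
    apply Complex.ext <;> simp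
  simp only
  rw [e]
  calc δ * _ ≤ δ * (2 * h) := mul_le_mul_of_nonneg_left (norm_le_two _ _ k1 k2) hδ
    _ = _ := by ring

theorem wired_rect {m k : ℕ} {ω : Finset Edg} (hω : ω ⊆ bulk m k) {v : Vtx}
    (h : InWired m k ω v) : IT.Rg m k v :=
  IT.reach_rect (IT.op_sub hω) h ⟨⟨by simp, by simp⟩, by simp, by simp⟩

theorem trace_near {m k : ℕ} {ω : Finset Edg} (hω : ω ⊆ bulk m k) {h : ℤ} (hh : 1 ≤ h) {n : ℕ}
    (hm : (m : ℤ) < n * h) (hk : (k : ℤ) < n * h) {δ : ℝ} (hδ : 0 ≤ δ) :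
    dist (trace δ m k ω) (corners δ h m k (vis h m k n ω)) ≤ 2 * (δ * h) := by
  have hcell : ∀ p ∈ Interface m k ω, ∃ i : Fin n × Fin n,
      p.1 ∈ Bx (lo h m i.1) (hi h m i.1) (lo h k i.2) (hi h k i.2) := by
    intro p hp
    obtain ⟨⟨h1, h2⟩, h3, h4⟩ := wired_rect hω hp.2.2.1
    obtain ⟨i1, h5, h6⟩ := cell_of hh h1 h2 hm
    obtain ⟨i2, h7, h8⟩ := cell_of hh h3 h4 hk
    exact ⟨(i1, i2), ⟨h5, h6⟩, h7, h8⟩
  have hne : (vis h m k n ω).Nonempty := by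
    obtain ⟨p, hp⟩ := interface_ne (m := m) (k := k) ω
    obtain ⟨i, hi'⟩ := hcell p hp
    exact ⟨i, p, hp, hi'⟩
  have e2 : (corners δ h m k (vis h m k n ω) : Set ℂ) = corner δ h m k '' vis h m k n ω := by
    unfold corners
    rw [dif_pos hne]
    rfl
  have hr : 0 ≤ 2 * (δ * h) := by
    have : (0:ℝ) ≤ h := by exact_mod_cast (by omega : (0:ℤ) ≤ h)
    positivity
  rw [NonemptyCompacts.dist_eq, coe_trace hω, e2]
  refine hausdorffDist_le_of_mem_dist hr ?_ ?_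
  · rintro z ⟨p, hp, rfl⟩
    obtain ⟨i, hi'⟩ := hcell p hp
    exact ⟨corner δ h m k i, ⟨i, ⟨p, hp, hi'⟩, rfl⟩, ctr_near hp hh hi' hδ⟩
  · rintro z ⟨i, ⟨p, hp, hi'⟩, rfl⟩
    refine ⟨(δ : ℂ) * ctr p, ⟨p, hp, rfl⟩, ?_⟩
    rw [dist_comm]
    exact ctr_near hp hh hi' hδ

theorem lo_bound {δ L : ℝ} (hδ : 0 ≤ δ) {h : ℤ} (hh : 1 ≤ h) {m : ℕ} (hm : δ * m ≤ L) (i : ℕ) :
    |δ * (lo h m i : ℝ)| ≤ L := by
  obtain ⟨h1, h2, h3, -⟩ := lo_hi hh m i
  have e1 : (0:ℝ) ≤ lo h m i := by exact_mod_cast h1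
  have e2 : (lo h m i : ℝ) ≤ m := by exact_mod_cast h2.trans h3
  rw [abs_of_nonneg (by positivity)]
  exact (mul_le_mul_of_nonneg_left e2 hδ).trans hm

theorem corners_ball {δ L : ℝ} (hδ : 0 ≤ δ) (hL : 0 ≤ L) {h : ℤ} (hh : 1 ≤ h) {m k : ℕ}
    (hm : δ * m ≤ L) (hk : δ * k ≤ L) {n : ℕ} (V : Set (Fin n × Fin n)) :
    (corners δ h m k V : Set ℂ) ⊆ closedBall 0 (2 * L) := by
  unfold corners
  split_ifs with hV
  · rintro z ⟨i, -, rfl⟩
    rw [mem_closedBall_zero_iff]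
    unfold corner
    have e : (δ : ℂ) * ⟨(lo h m i.1 : ℝ), (lo h k i.2 : ℝ)⟩ =
        ⟨δ * (lo h m i.1 : ℝ), δ * (lo h k i.2 : ℝ)⟩ := by
      apply Complex.ext <;> simp
    rw [e]
    exact norm_le_two _ _ (lo_bound hδ hh hm _) (lo_bound hδ hh hk _)
  · rintro z hz
    have : z = 0 := hz
    rw [this]
    exact mem_closedBall_self (by positivity)

theorem trace_ball {δ L : ℝ} (hδ : 0 ≤ δ) (hδ1 : δ ≤ 1) {m k : ℕ}
    (hm : δ * m ≤ L) (hk : δ * k ≤ L) {ω : Finset Edg} (hω : ω ⊆ bulk m k) :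
    (trace δ m k ω : Set ℂ) ⊆ closedBall 0 (2 * (L + 1)) := by
  rw [coe_trace hω]
  rintro z ⟨⟨⟨v1, v2⟩, f1, f2⟩, hp, rfl⟩
  obtain ⟨⟨h1, h2⟩, h3, h4⟩ := wired_rect hω hp.2.2.1
  obtain ⟨h5, h6, -, -⟩ := hp
  simp only at h1 h2 h3 h4 h5 h6
  have key : ∀ (v f : ℤ) (m : ℕ), (f = v ∨ f = v - 1) → 0 ≤ v → v ≤ m → δ * m ≤ L →
      |δ * (((v : ℝ) + f + 1/2) / 2)| ≤ L + 1 := by
    intro v f m hf hv hvm hmL
    have e1 : (0 : ℝ) ≤ v := by exact_mod_cast hv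
    have e2 : (v : ℝ) ≤ m := by exact_mod_cast hvm
    have e3 : (f : ℝ) ≤ v := by
      have : f ≤ v := by omega
      exact_mod_cast this
    have e4 : (v : ℝ) - 1 ≤ f := by
      have : v - 1 ≤ f := by omega
      exact_mod_cast this
    rw [abs_mul, abs_of_nonneg hδ]
    have e5 : |((v : ℝ) + f + 1/2) / 2| ≤ m + 1 := by
      rw [abs_le]
      constructor <;> linarith
    calc δ * |((v : ℝ) + f + 1/2) / 2| ≤ δ * (m + 1) := mul_le_mul_of_nonneg_left e5 hδ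
      _ = δ * m + δ := by ring
      _ ≤ L + 1 := by linarith
  rw [mem_closedBall_zero_iff]
  unfold ctr
  have e : (δ : ℂ) * ⟨((v1 : ℝ) + f1 + 1/2) / 2, ((v2 : ℝ) + f2 + 1/2) / 2⟩ =
      ⟨δ * (((v1 : ℝ) + f1 + 1/2) / 2), δ * (((v2 : ℝ) + f2 + 1/2) / 2)⟩ := by
    apply Complex.ext <;> simp
  simp only
  rw [e]
  exact norm_le_two _ _ (key v1 f1 m h5 h1 h2 hm) (key v2 f2 k h6 h3 h4 hk)

/-- **The trace of the interface has the same scaling limits as for percolation.** -/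
theorem trace_lim (q δ : ℕ → ℝ) (m k : ℕ → ℕ) (L : ℝ) (hq : ∀ j, 0 < q j) (hδ : ∀ j, 0 < δ j)
    (hδ0 : Tendsto δ atTop (𝓝 0)) (hm : ∀ j, 1 ≤ m j ∧ δ j * m j ≤ L)
    (hk : ∀ j, 1 ≤ k j ∧ δ j * k j ≤ L)
    (hw : Tendsto (fun j => |q j - 1| * ((max (m j) (k j) : ℕ) : ℝ) ^ (3/4 : ℝ)) atTop (𝓝 0))
    (G : NonemptyCompacts ℂ → ℝ) (hG : Continuous G) :
    Tendsto (fun j => rcE (q j) (m j) (k j) (fun ω => G (trace (δ j) (m j) (k j) ω)) -
      rcE 1 (m j) (k j) (fun ω => G (trace (δ j) (m j) (k j) ω))) atTop (𝓝 0) := by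
  classical
  obtain ⟨C, hC, hclose⟩ := visits_close
  have hL : 0 ≤ L := by
    have := (hm 0).2
    have h1 := (hδ 0).le
    exact (by positivity : 0 ≤ δ 0 * m 0).trans this
  set KK : Set (NonemptyCompacts ℂ) := {S | (S : Set ℂ) ⊆ closedBall 0 (2 * (L + 1))} with hKK
  have hcomp : IsCompact KK :=
    NonemptyCompacts.isCompact_subsets_of_isCompact (isCompact_closedBall _ _)
  obtain ⟨B, hB⟩ := hcomp.exists_bound_of_continuousOn hG.continuousOn
  have hB0 : 0 ≤ B := (norm_nonneg _).trans (hB ⟨⟨{0}, isCompact_singleton⟩, ⟨0, rfl⟩⟩ (by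
    rintro z hz
    have : z = 0 := hz
    rw [this]
    exact mem_closedBall_self (by positivity)))
  have huc := Metric.uniformContinuousOn_iff.1 (hcomp.uniformContinuousOn_of_continuous
    hG.continuousOn)
  rw [Metric.tendsto_atTop]
  intro ε hε
  obtain ⟨η, hη, huc⟩ := huc (ε / 4) (by linarith)
  -- the number of the cells
  set n : ℕ := ⌈8 * L / η⌉₊ + 1 with hn
  set W : ℝ := Fintype.card (Set (Fin n × Fin n)) * (B * (C * Fintype.card (Fin n × Fin n))) with hW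
  have hW0 : 0 ≤ W := by positivity
  have hw2 : Tendsto (fun j => W * (|q j - 1| * ((max (m j) (k j) : ℕ) : ℝ) ^ (3/4 : ℝ))) atTop
      (𝓝 0) := by
    have := hw.const_mul W
    rwa [mul_zero] at this
  have ev1 := (Metric.tendsto_atTop.1 hw2) (ε / 4) (by linarith)
  obtain ⟨j1, hj1⟩ := ev1
  have ev2 := (Metric.tendsto_atTop.1 hδ0) (min 1 (η / 4)) (by positivity)
  obtain ⟨j2, hj2⟩ := ev2
  refine ⟨max j1 j2, fun j hj => ?_⟩
  have h1 := hj1 j ((le_max_left _ _).trans hj)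
  have h2 := hj2 j ((le_max_right _ _).trans hj)
  rw [Real.dist_eq, sub_zero] at h1 h2
  have hδp := hδ j
  rw [abs_of_pos hδp, lt_min_iff] at h2
  obtain ⟨hδ1, hδη⟩ := h2
  set δj := δ j with hδj
  -- the size of the cells
  set h : ℤ := ⌊η / (4 * δj)⌋ with hh
  have hh1 : 1 ≤ h := by
    rw [hh, Int.le_floor]
    push_cast
    rw [le_div_iff₀ (by positivity)]
    linarith
  have hh2 : (h : ℝ) * (4 * δj) ≤ η := by
    have := Int.floor_le (η / (4 * δj))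
    rwa [le_div_iff₀ (by positivity)] at this
  have hh3 : η < ((h : ℝ) + 1) * (4 * δj) := by
    have := Int.lt_floor_add_one (η / (4 * δj))
    rwa [div_lt_iff₀ (by positivity)] at this
  have hh4 : (1:ℝ) ≤ h := by exact_mod_cast hh1
  have hbig : ∀ N : ℕ, δj * N ≤ L → (N : ℤ) < n * h := by
    intro N hN
    have e1 : (8 * L / η) < n := by
      rw [hn]
      push_cast
      have := Nat.le_ceil (8 * L / η)
      linarith
    rw [div_lt_iff₀ hη] at e1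
    have e2 : η < 8 * (δj * h) := by nlinarith
    have e3 : (N : ℝ) < n * h := by
      have e4 : 8 * (δj * N) < n * (8 * (δj * h)) := by
        calc 8 * (δj * N) ≤ 8 * L := by linarith
          _ < n * η := e1
          _ ≤ n * (8 * (δj * h)) := mul_le_mul_of_nonneg_left e2.le (Nat.cast_nonneg _)
      have e5 : 8 * (δj * N) < 8 * (δj * (n * h)) := by
        calc 8 * (δj * N) < n * (8 * (δj * h)) := e4
          _ = _ := by ring
      have e6 := lt_of_mul_lt_mul_left e5 (by norm_num)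
      exact lt_of_mul_lt_mul_left e6 hδp.le
    exact_mod_cast e3
  have hmn := hbig (m j) (hm j).2
  have hkn := hbig (k j) (hk j).2
  -- approximation
  have happ : ∀ ω, ω ⊆ bulk (m j) (k j) →
      |G (trace δj (m j) (k j) ω) - G (corners δj h (m j) (k j) (vis h (m j) (k j) n ω))| ≤
        ε / 4 := by
    intro ω hω
    have h3 := trace_near hω hh1 hmn hkn hδp.le
    have h4 : dist (trace δj (m j) (k j) ω) (corners δj h (m j) (k j) (vis h (m j) (k j) n ω)) <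
        η := by
      refine h3.trans_lt ?_
      nlinarith
    have h5 := huc _ (trace_ball hδp.le hδ1.le (hm j).2 (hk j).2 hω) _
      ((corners_ball hδp.le hL hh1 (hm j).2 (hk j).2 _).trans
        (closedBall_subset_closedBall (by linarith))) h4
    rw [Real.dist_eq] at h5
    exact h5.le
  have a1 := rcE_close (hq j) happ
  have a2 := rcE_close one_pos happ
  have a3 := rcE_diff (q := q j) (q' := 1) (m := m j) (k := k j) (vis h (m j) (k j) n)
    (fun V => G (corners δj h (m j) (k j) V)) (B := B)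
    (K := C * Fintype.card (Fin n × Fin n) * |q j - 1| *
      ((max (m j) (k j) : ℕ) : ℝ) ^ (3/4 : ℝ)) (fun V => by
      have := hB _ ((corners_ball hδp.le hL hh1 (hm j).2 (hk j).2 V).trans
        (closedBall_subset_closedBall (by linarith)))
      rwa [Real.norm_eq_abs] at this) (fun V => by
      have h6 := hclose (q j) (hq j) (m j) (k j) (hm j).1 (hk j).1 (Fin n × Fin n)
        (fun i => lo h (m j) i.1) (fun i => hi h (m j) i.1) (fun i => lo h (k j) i.2)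
        (fun i => hi h (k j) i.2) (fun i => by
          obtain ⟨b1, b2, b3, -⟩ := lo_hi hh1 (m j) i.1
          obtain ⟨c1, c2, c3, -⟩ := lo_hi hh1 (k j) i.2
          exact ⟨⟨b1, b2, b3⟩, c1, c2, c3⟩) {V}
      exact h6)
  have a4 : (Fintype.card (Set (Fin n × Fin n)) : ℝ) * (B * (C * Fintype.card (Fin n × Fin n) *
      |q j - 1| * ((max (m j) (k j) : ℕ) : ℝ) ^ (3/4 : ℝ))) =
      W * (|q j - 1| * ((max (m j) (k j) : ℕ) : ℝ) ^ (3/4 : ℝ)) := by
    rw [hW]; ring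
  rw [a4] at a3
  have a5 := (le_abs_self _).trans_lt h1
  rw [Real.dist_eq, sub_zero]
  rw [abs_le] at a1 a2 a3
  rw [abs_lt]
  constructor <;> linarith [a1.1, a1.2, a2.1, a2.2, a3.1, a3.2]

end Pool.Agent.X136.TR
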