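import Pool.Agent.X136.NW.Near

set_option autoImplicit false

/-!
# Connections of a box and a boundary point near the critical point

The complement of a box in a rectangle is divided into four rectangles.
-/

namespace Pool.Agent.X136.TR

open Finset H974 H12S H973N

section
variable {E : Type*} [DecidableEq E]

theorem Ex_comm (p q : E → ℝ) (S T : Finset E) (f : Finset E → Finset E → ℝ) :
    Ex p S (fun A => Ex q T (fun B => f A B)) = Ex q T (fun B => Ex p S (fun A => f A B)) := by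
  unfold Ex
  simp only [mul_sum]
  rw [sum_comm]
  refine sum_congr rfl fun B _ => sum_congr rfl fun A _ => ?_
  ring

theorem two_block {p q : ℝ} (hp : 0 ≤ p ∧ p ≤ 1) (hq : 0 ≤ q ∧ q ≤ 1) {S T : Finset E}
    (hd : Disjoint S T) {f : Finset E → ℝ} {K1 K2 : ℝ}
    (h1 : ∀ G, G ⊆ T → Ex (fun _ => p) S (fun F => f (F ∪ G)) -
      Ex (fun _ => q) S (fun F => f (F ∪ G)) ≤ K1)
    (h2 : ∀ F, F ⊆ S → Ex (fun _ => p) T (fun G => f (F ∪ G)) -
      Ex (fun _ => q) T (fun G => f (F ∪ G)) ≤ K2) :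
    Ex (fun _ => p) (S ∪ T) f - Ex (fun _ => q) (S ∪ T) f ≤ K1 + K2 := by
  rw [Ex_union hd, Ex_union hd]
  have e1 : Ex (fun _ => p) S (fun A => Ex (fun _ => p) T (fun B => f (A ∪ B))) -
      Ex (fun _ => q) S (fun A => Ex (fun _ => p) T (fun B => f (A ∪ B))) ≤ K1 := by
    rw [Ex_comm, Ex_comm (fun _ => q), ← Ex_sub]
    exact Ex_le_of_le (fun _ => hp) h1
  have e2 : Ex (fun _ => q) S (fun A => Ex (fun _ => p) T (fun B => f (A ∪ B))) -
      Ex (fun _ => q) S (fun A => Ex (fun _ => q) T (fun B => f (A ∪ B))) ≤ K2 := by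
    rw [← Ex_sub]
    exact Ex_le_of_le (fun _ => hq) h2
  linarith

end

/-- the variation of the connection probability of `I` and `J`, for all sets of additional
open edges -/
def Bd (p q : ℝ) (I J : Set Vtx) (S : Finset Edg) (K : ℝ) : Prop :=
  ∀ O : Set Edg, Disjoint O ↑S → PQ p S (CO I J O) - PQ q S (CO I J O) ≤ K

theorem co_split {I J : Set Vtx} {O : Set Edg} {F G : Finset Edg} :
    CO I J O (F ∪ G) ↔ CO I J (O ∪ ↑G) F := by
  unfold CO
  have : (↑(F ∪ G) ∪ O : Set Edg) = ↑F ∪ (O ∪ ↑G) := by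
    rw [coe_union]
    ext e
    simp only [Set.mem_union]
    tauto
  rw [this]

theorem Bd.union {p q : ℝ} (hp : 0 ≤ p ∧ p ≤ 1) (hq : 0 ≤ q ∧ q ≤ 1) {I J : Set Vtx}
    {S T : Finset Edg} {K1 K2 : ℝ} (hd : Disjoint S T) (h1 : Bd p q I J S K1)
    (h2 : Bd p q I J T K2) : Bd p q I J (S ∪ T) (K1 + K2) := by
  intro O hO
  rw [coe_union, Set.disjoint_union_right] at hO
  unfold PQ Pr
  refine two_block hp hq hd ?_ ?_
  · intro G hG
    have e : (fun F => ind (CO I J O (F ∪ G))) = fun F => ind (CO I J (O ∪ ↑G) F) := by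
      funext F
      rw [co_split]
    rw [e]
    refine h1 (O ∪ ↑G) ?_
    rw [Set.disjoint_union_left]
    refine ⟨hO.1, ?_⟩
    rw [disjoint_coe]
    exact (disjoint_of_subset_right hG hd).symm
  · intro F hF
    have e : (fun G => ind (CO I J O (F ∪ G))) = fun G => ind (CO I J (O ∪ ↑F) G) := by
      funext G
      rw [union_comm, co_split]
    rw [e]
    refine h2 (O ∪ ↑F) ?_
    rw [Set.disjoint_union_left]
    refine ⟨hO.2, ?_⟩
    rw [disjoint_coe]
    exact disjoint_of_subset_left hF hd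

/-- edges with both ends in `J` do not matter -/
theorem Bd.inner {p q : ℝ} {I J : Set Vtx} {S : Finset Edg}
    (h : ∀ e ∈ S, src e ∈ J ∧ tgt e ∈ J) : Bd p q I J S 0 := by
  intro O _
  have key : ∀ F, F ⊆ S → (CO I J O F ↔ CO I J O ∅) := by
    intro F hF
    constructor
    · rintro ⟨u, hu, v, hv, hr⟩
      have h1 : ∀ w, Reach (↑F ∪ O) u w → (∃ v' ∈ J, Reach (↑(∅ : Finset Edg) ∪ O) u v') ∨
          Reach (↑(∅ : Finset Edg) ∪ O) u w := by
        intro w hw
        induction hw with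
        | refl => exact Or.inr (Reach.refl _ _)
        | @tail a b _ hs ih =>
          rcases ih with ih | ih
          · exact Or.inl ih
          · obtain ⟨e, he | he, hh⟩ := hs
            · left
              obtain ⟨h2, h3⟩ := h e (hF he)
              refine ⟨a, ?_, ih⟩
              rcases hh with ⟨h4, -⟩ | ⟨h4, h5⟩
              · rw [← h4]; exact h2
              · first
                  | (rw [← h5]; exact h3)
                  | (rw [← h4]; exact h3)
            · exact Or.inr (ih.trans (Adj.reach ⟨e, Or.inr he, hh⟩))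
      rcases h1 v hr with ⟨v', hv', h2⟩ | h2
      · exact ⟨u, hu, v', hv', h2⟩
      · exact ⟨u, hu, v, hv, h2⟩
    · intro h2
      exact NW.co_mono _ _ (empty_subset F) h2
  have e1 : ∀ t : ℝ, PQ t S (CO I J O) = ind (CO I J O ∅) := by
    intro t
    unfold PQ Pr
    rw [Ex_congr (g := fun _ => ind (CO I J O ∅)) (fun F hF => ind_congr (key F hF)), Ex_const]
  rw [e1, e1, sub_self]

/-- a box of vertices -/
def Bx (a b c d : ℤ) : Set Vtx := {v | (a ≤ v.1 ∧ v.1 ≤ b) ∧ (c ≤ v.2 ∧ v.2 ≤ d)}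

/-- **Connection of a box and a boundary point.** -/
theorem strip : ∃ C : ℝ, 1 ≤ C ∧ ∀ M : ℕ, 1 ≤ M → ∀ δ : ℝ, 0 ≤ δ → δ ≤ 1/2 →
    ∀ m k : ℤ, 0 ≤ m → m ≤ M → 0 ≤ k → k ≤ M → ∀ S : Finset Edg, S ⊆ RE 0 m 0 k →
    RE 1 (m - 1) 1 (k - 1) ⊆ S → ∀ z : Vtx, ¬ ((0 < z.1 ∧ z.1 < m) ∧ (0 < z.2 ∧ z.2 < k)) →
    ∀ a b c d : ℤ, 0 ≤ a → a ≤ b → b ≤ m → 0 ≤ c → c ≤ d → d ≤ k →
    Bd (1/2 + δ) (1/2 - δ) {z} (Bx a b c d) S (C * δ * (M:ℝ) ^ (3/4 : ℝ)) := by
  obtain ⟨C, hC, hn⟩ := NW.near_all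
  refine ⟨4 * C, by linarith, ?_⟩
  intro M hM δ hδ hδ2 m k hm hmM hk hkM S hS1 hS2 z hz a b c d ha hab hb hc hcd hd
  classical
  set I : Set Vtx := {z} with hI
  set J : Set Vtx := Bx a b c d with hJ
  set S1 := S ∩ RE 0 a 0 k with hS1d
  set S2 := (S ∩ RE b m 0 k) \ S1 with hS2d
  set S3 := (S ∩ RE a b 0 c) \ (S1 ∪ S2) with hS3d
  set S4 := (S ∩ RE a b d k) \ (S1 ∪ S2 ∪ S3) with hS4d
  set S5 := S \ (S1 ∪ S2 ∪ S3 ∪ S4) with hS5d
  have hK := fun (A B D E' : ℤ) (hA : B - A ≤ M) (hB : E' - D ≤ M) (T : Finset Edg)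
    (hoff : Off A B D E' I J) (h1 : T ⊆ RE A B D E')
    (h2 : RE (A + 1) (B - 1) (D + 1) (E' - 1) ⊆ T) (O : Set Edg) (hO : Disjoint O ↑T) =>
    hn M hM δ hδ hδ2 A B D E' hA hB T O I J hO hoff h1 h2
  have b1 : Bd (1/2 + δ) (1/2 - δ) I J S1 (C * δ * (M:ℝ) ^ (3/4 : ℝ)) := by
    refine hK 0 a 0 k (by omega) (by omega) S1 ?_ inter_subset_right ?_
    · rintro v (hv | hv)
      · rw [hI, Set.mem_singleton_iff] at hv; subst hv; omega
      · obtain ⟨⟨h1, h2⟩, h3, h4⟩ := hv; omega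
    · rintro ⟨x, y, _ | _⟩ h
      · have h5 := h
        rw [mem_RE_false] at h
        rw [hS1d, mem_inter, mem_RE_false]
        exact ⟨hS2 (by rw [mem_RE_false]; omega), by omega⟩
      · rw [mem_RE_true] at h
        rw [hS1d, mem_inter, mem_RE_true]
        exact ⟨hS2 (by rw [mem_RE_true]; omega), by omega⟩
  have b2 : Bd (1/2 + δ) (1/2 - δ) I J S2 (C * δ * (M:ℝ) ^ (3/4 : ℝ)) := by
    refine hK b m 0 k (by omega) (by omega) S2 ?_ (sdiff_subset.trans inter_subset_right) ?_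
    · rintro v (hv | hv)
      · rw [hI, Set.mem_singleton_iff] at hv; subst hv; omega
      · obtain ⟨⟨h1, h2⟩, h3, h4⟩ := hv; omega
    · rintro ⟨x, y, _ | _⟩ h
      · rw [mem_RE_false] at h
        rw [hS2d, hS1d, mem_sdiff, mem_inter, mem_inter, mem_RE_false, mem_RE_false]
        exact ⟨⟨hS2 (by rw [mem_RE_false]; omega), by omega⟩, fun h => by omega⟩
      · rw [mem_RE_true] at h
        rw [hS2d, hS1d, mem_sdiff, mem_inter, mem_inter, mem_RE_true, mem_RE_true]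
        exact ⟨⟨hS2 (by rw [mem_RE_true]; omega), by omega⟩, fun h => by omega⟩
  have b3 : Bd (1/2 + δ) (1/2 - δ) I J S3 (C * δ * (M:ℝ) ^ (3/4 : ℝ)) := by
    refine hK a b 0 c (by omega) (by omega) S3 ?_ (sdiff_subset.trans inter_subset_right) ?_
    · rintro v (hv | hv)
      · rw [hI, Set.mem_singleton_iff] at hv; subst hv; omega
      · obtain ⟨⟨h1, h2⟩, h3, h4⟩ := hv; omega
    · rintro ⟨x, y, _ | _⟩ h
      · rw [mem_RE_false] at h
        rw [hS3d, hS2d, hS1d, mem_sdiff, mem_union, mem_sdiff, mem_inter, mem_inter, mem_inter,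
          mem_RE_false, mem_RE_false, mem_RE_false]
        exact ⟨⟨hS2 (by rw [mem_RE_false]; omega), by omega⟩, fun h => by omega⟩
      · rw [mem_RE_true] at h
        rw [hS3d, hS2d, hS1d, mem_sdiff, mem_union, mem_sdiff, mem_inter, mem_inter, mem_inter,
          mem_RE_true, mem_RE_true, mem_RE_true]
        exact ⟨⟨hS2 (by rw [mem_RE_true]; omega), by omega⟩, fun h => by omega⟩
  have b4 : Bd (1/2 + δ) (1/2 - δ) I J S4 (C * δ * (M:ℝ) ^ (3/4 : ℝ)) := by
    refine hK a b d k (by omega) (by omega) S4 ?_ (sdiff_subset.trans inter_subset_right) ?_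
    · rintro v (hv | hv)
      · rw [hI, Set.mem_singleton_iff] at hv; subst hv; omega
      · obtain ⟨⟨h1, h2⟩, h3, h4⟩ := hv; omega
    · rintro ⟨x, y, _ | _⟩ h
      · rw [mem_RE_false] at h
        rw [hS4d, hS3d, hS2d, hS1d, mem_sdiff, mem_union, mem_union, mem_sdiff, mem_sdiff,
          mem_inter, mem_inter, mem_inter, mem_inter,
          mem_RE_false, mem_RE_false, mem_RE_false, mem_RE_false]
        exact ⟨⟨hS2 (by rw [mem_RE_false]; omega), by omega⟩, fun h => by omega⟩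
      · rw [mem_RE_true] at h
        rw [hS4d, hS3d, hS2d, hS1d, mem_sdiff, mem_union, mem_union, mem_sdiff, mem_sdiff,
          mem_inter, mem_inter, mem_inter, mem_inter,
          mem_RE_true, mem_RE_true, mem_RE_true, mem_RE_true]
        exact ⟨⟨hS2 (by rw [mem_RE_true]; omega), by omega⟩, fun h => by omega⟩
  have b5 : Bd (1/2 + δ) (1/2 - δ) I J S5 0 := by
    refine Bd.inner ?_
    rintro ⟨x, y, _ | _⟩ h
    · rw [hS5d, mem_sdiff] at h
      obtain ⟨h1, h2⟩ := h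
      have h3 := hS1 h1
      rw [mem_RE_false] at h3
      rw [hS4d, hS3d, hS2d, hS1d] at h2
      simp only [mem_union, mem_sdiff, mem_inter, h1, true_and, mem_RE_false, not_or, not_and,
        not_not] at h2
      rw [src_mk, tgt_false]
      constructor <;> refine ⟨⟨?_, ?_⟩, ?_, ?_⟩ <;> simp only <;> omega
    · rw [hS5d, mem_sdiff] at h
      obtain ⟨h1, h2⟩ := h
      have h3 := hS1 h1
      rw [mem_RE_true] at h3
      rw [hS4d, hS3d, hS2d, hS1d] at h2
      simp only [mem_union, mem_sdiff, mem_inter, h1, true_and, mem_RE_true, not_or, not_and,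
        not_not] at h2
      rw [src_mk, tgt_true]
      constructor <;> refine ⟨⟨?_, ?_⟩, ?_, ?_⟩ <;> simp only <;> omega
  have p1 : (0:ℝ) ≤ 1/2 + δ ∧ 1/2 + δ ≤ 1 := ⟨by linarith, by linarith⟩
  have p2 : (0:ℝ) ≤ 1/2 - δ ∧ 1/2 - δ ≤ 1 := ⟨by linarith, by linarith⟩
  have u1 := b1.union p1 p2 (T := S2) disjoint_sdiff b2
  have u2 := u1.union p1 p2 (T := S3) disjoint_sdiff b3
  have u3 := u2.union p1 p2 (T := S4) disjoint_sdiff b4
  have u4 := u3.union p1 p2 (T := S5) disjoint_sdiff b5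
  have hsub : S1 ∪ S2 ∪ S3 ∪ S4 ⊆ S := by
    refine union_subset (union_subset (union_subset inter_subset_left ?_) ?_) ?_ <;>
    exact sdiff_subset.trans inter_subset_left
  have hall : S1 ∪ S2 ∪ S3 ∪ S4 ∪ S5 = S := union_sdiff_of_subset hsub
  rw [hall] at u4
  intro O hO
  refine (u4 O hO).trans (le_of_eq ?_)
  ring

end Pool.Agent.X136.TR
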